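import Pool.Agent.W47.JL.Defs

/-!
# Project JL: rational approximation from a relation of a digit string
-/

set_option autoImplicit false

namespace Pool.Agent.W45.JL

open Finset Polynomial
open Pool.Agent.H831R3.LC (W dig A dig_eq W_eq W_mul W_sub)
open Pool.Agent.W47.JL

theorem approx : S_APPROX := by
  intro x b H r D u v s t hb ht hD hr hs huv hvr
  obtain ⟨B, hB0, hB1⟩ : ∃ B : ℕ → ℤ, B 0 = 0 ∧ ∀ i, B (i + 1) = b * B i + s i :=
    ⟨fun i => Nat.rec 0 (fun i z => (b : ℤ) * z + s i) i, rfl, fun _ => rfl⟩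
  obtain ⟨n, hn⟩ : ∃ n, v = u + n + D := ⟨v - D - u, by omega⟩
  have hvn : v - D - u = n := by omega
  rw [hvn]
  obtain ⟨G, hG⟩ : ∃ G, G = W t B := ⟨_, rfl⟩
  have hd : s = W (X - C (b : ℤ)) B := by
    funext i
    rw [W_sub, hB1]
    ring
  have hstep : ∀ i < r, G (i + 1) = b * G i := by
    intro i hi
    have h1 := hr i hi
    rw [hd, ← W_mul, mul_comm, W_mul, W_sub, ← hG] at h1
    linarith
  have hpow : ∀ i ≤ r, G i = (b : ℤ) ^ i * G 0 := by
    intro i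
    induction i with
    | zero => intro _; simp
    | succ i ihi =>
      intro hi
      rw [hstep i (by omega), ihi (by omega)]
      ring
  obtain ⟨δ, hδ⟩ : ∃ δ : ℤ, δ = B u - A x b u := ⟨_, rfl⟩
  have hshift : ∀ j, u + j ≤ v → B (u + j) = A x b (u + j) + δ * (b : ℤ) ^ j := by
    intro j
    induction j with
    | zero =>
      intro _
      rw [hδ]
      simp
    | succ j ih =>
      intro hj
      rw [← add_assoc, hB1, ih (by omega), hs (u + j) (by omega) (by omega), dig_eq x b hb]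
      ring
  refine ⟨(b : ℤ) ^ u * G 0 - δ * t.eval (b : ℤ), ?_⟩
  have e1 : (((t.eval (b : ℤ) : ℤ) : ℝ) * (b : ℝ) ^ u * x -
      (((b : ℤ) ^ u * G 0 - δ * t.eval (b : ℤ) : ℤ) : ℝ)) * (b : ℝ) ^ n =
      ∑ j ∈ range (D + 1), (t.coeff j : ℝ) * Int.fract (x * (b : ℝ) ^ (u + n + j)) := by
    have h1 : G (u + n) = (b : ℤ) ^ (u + n) * G 0 := hpow (u + n) (by omega)
    have h2 : G (u + n) = ∑ j ∈ range (D + 1), t.coeff j *
        (A x b (u + n + j) + δ * (b : ℤ) ^ (n + j)) := by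
      rw [hG, W_eq t _ (u + n) (D + 1) (by omega)]
      refine Finset.sum_congr rfl fun j hj => ?_
      rw [mem_range] at hj
      rw [add_assoc, hshift (n + j) (by omega)]
    have h3 : t.eval (b : ℤ) = ∑ j ∈ range (D + 1), t.coeff j * (b : ℤ) ^ j :=
      eval_eq_sum_range' (by omega) _
    have h4 : ((b : ℝ) ^ (u + n) * (G 0 : ℝ)) = ∑ j ∈ range (D + 1), (t.coeff j : ℝ) *
        ((A x b (u + n + j) : ℝ) + (δ : ℝ) * (b : ℝ) ^ (n + j)) := by
      have := congrArg (fun z : ℤ => (z : ℝ)) (h1.symm.trans h2)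
      push_cast at this
      exact this
    have h5 : ((t.eval (b : ℤ) : ℤ) : ℝ) = ∑ j ∈ range (D + 1), (t.coeff j : ℝ) * (b : ℝ) ^ j := by
      rw [h3]
      push_cast
      rfl
    have h6 : (((t.eval (b : ℤ) : ℤ) : ℝ) * (b : ℝ) ^ u * x -
        (((b : ℤ) ^ u * G 0 - δ * t.eval (b : ℤ) : ℤ) : ℝ)) * (b : ℝ) ^ n =
        ((t.eval (b : ℤ) : ℤ) : ℝ) * ((b : ℝ) ^ (u + n) * x + δ * (b : ℝ) ^ n) -
          (b : ℝ) ^ (u + n) * (G 0 : ℝ) := by
      push_cast
      rw [pow_add]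
      ring
    rw [h6, h4, h5, Finset.sum_mul, ← Finset.sum_sub_distrib]
    refine Finset.sum_congr rfl fun j _ => ?_
    have h7 : Int.fract (x * (b : ℝ) ^ (u + n + j)) =
        x * (b : ℝ) ^ (u + n + j) - (A x b (u + n + j) : ℝ) := rfl
    rw [h7, pow_add (b : ℝ) (u + n) j, pow_add (b : ℝ) n j]
    ring
  have e2 : |((t.eval (b : ℤ) : ℤ) : ℝ) * (b : ℝ) ^ u * x -
      (((b : ℤ) ^ u * G 0 - δ * t.eval (b : ℤ) : ℤ) : ℝ)| * (b : ℝ) ^ n =
      |∑ j ∈ range (D + 1), (t.coeff j : ℝ) * Int.fract (x * (b : ℝ) ^ (u + n + j))| := by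
    rw [← e1, abs_mul, abs_of_nonneg (by positivity : (0 : ℝ) ≤ (b : ℝ) ^ n)]
  rw [e2]
  calc _ ≤ ∑ j ∈ range (D + 1),
        |(t.coeff j : ℝ) * Int.fract (x * (b : ℝ) ^ (u + n + j))| :=
        Finset.abs_sum_le_sum_abs _ _
    _ ≤ ∑ _j ∈ range (D + 1), (H : ℝ) := by
        refine Finset.sum_le_sum fun j _ => ?_
        rw [abs_mul, abs_of_nonneg (Int.fract_nonneg (x * (b : ℝ) ^ (u + n + j)))]
        have h1 : |(t.coeff j : ℝ)| ≤ H := by exact_mod_cast ht j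
        have h2 := (Int.fract_lt_one (x * (b : ℝ) ^ (u + n + j))).le
        have h3 := Int.fract_nonneg (x * (b : ℝ) ^ (u + n + j))
        nlinarith [abs_nonneg (t.coeff j : ℝ)]
    _ = _ := by rw [Finset.sum_const, card_range, nsmul_eq_mul]; push_cast; ring

end Pool.Agent.W45.JL
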